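import Pool.Agent.TH78.FA.ParentTree

set_option autoImplicit false

/-! A group that is the union of an increasing sequence of proper subgroups acts on a tree
without inversions and without a global fixed vertex. -/

namespace Pool.Agent.TH78.FA

variable {H : Type} [Group H]

/-- the vertices: cosets of the members of the chain -/
abbrev VT (K : ℕ → Subgroup H) : Type := Σ n : ℕ, H ⧸ K n

/-- the parent of a coset -/
def par (K : ℕ → Subgroup H) (hK : ∀ n, K n ≤ K (n + 1)) (v : VT K) : VT K :=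
  ⟨v.1 + 1, Subgroup.quotientMapOfLE (hK v.1) v.2⟩

theorem par_mk (K : ℕ → Subgroup H) (hK : ∀ n, K n ≤ K (n + 1)) (n : ℕ) (g : H) :
    par K hK ⟨n, (g : H ⧸ K n)⟩ = ⟨n + 1, (g : H ⧸ K (n + 1))⟩ := rfl

theorem par_iter (K : ℕ → Subgroup H) (hK : ∀ n, K n ≤ K (n + 1)) (n m : ℕ) (g : H) :
    (par K hK)^[m] ⟨n, (g : H ⧸ K n)⟩ = ⟨n + m, (g : H ⧸ K (n + m))⟩ := by
  induction m with
  | zero => rfl
  | succ m ih =>
    rw [Function.iterate_succ_apply', ih, par_mk]
    rfl

theorem par_smul (K : ℕ → Subgroup H) (hK : ∀ n, K n ≤ K (n + 1)) (h : H) (v : VT K) :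
    par K hK (h • v) = h • par K hK v := by
  obtain ⟨n, q⟩ := v
  induction q using QuotientGroup.induction_on with
  | H g => rfl

theorem mk_congr (K : ℕ → Subgroup H) (g : H) {a b : ℕ} (e : a = b) :
    (⟨a, (g : H ⧸ K a)⟩ : VT K) = ⟨b, (g : H ⧸ K b)⟩ := by
  subst e; rfl

theorem chain_tree (K : ℕ → Subgroup H) (hK : ∀ n, K n ≤ K (n + 1))
    (hU : ∀ h : H, ∃ n, h ∈ K n) (hP : ∀ n, K n ≠ ⊤) :
    ∃ T : SimpleGraph (VT K), T.IsTree ∧
      (∀ g : H, ∀ x y : VT K, T.Adj x y → T.Adj (g • x) (g • y)) ∧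
      (∀ g : H, ∀ x y : VT K, T.Adj x y → ¬ (g • x = y ∧ g • y = x)) ∧
      ¬ ∃ v : VT K, ∀ g : H, g • v = v := by
  have : Nonempty (VT K) := ⟨⟨0, ((1 : H) : H ⧸ K 0)⟩⟩
  have hmono : Monotone K := monotone_nat_of_le_succ hK
  refine ⟨parGraph (par K hK), parGraph_isTree (par K hK) (fun v => v.1) (fun v => rfl) ?_,
    ?_, ?_, ?_⟩
  · rintro ⟨m, q⟩ ⟨n, r⟩
    induction q using QuotientGroup.induction_on with
    | H g =>
    induction r using QuotientGroup.induction_on with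
    | H h =>
    obtain ⟨k, hk⟩ := hU (g⁻¹ * h)
    refine ⟨n + k, m + k, ?_⟩
    rw [par_iter, par_iter]
    have e : m + (n + k) = n + (m + k) := by omega
    have h1 : ((g : H) : H ⧸ K (n + (m + k))) = ((h : H) : H ⧸ K (n + (m + k))) := by
      rw [QuotientGroup.eq]
      exact hmono (by omega) hk
    rw [← h1]
    exact mk_congr K g e
  · rintro g x y ⟨hne, h⟩
    refine ⟨fun hc => hne (smul_left_cancel g hc), ?_⟩
    rw [par_smul, par_smul]
    rcases h with h | h
    · left; rw [h]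
    · right; rw [h]
  · rintro g x y ⟨hne, h⟩ ⟨h1, h2⟩
    have e1 : x.1 = y.1 := by rw [← h1]; rfl
    rcases h with h | h
    · rw [← h] at e1
      change x.1 = x.1 + 1 at e1
      omega
    · rw [← h] at e1
      change y.1 + 1 = y.1 at e1
      omega
  · rintro ⟨⟨n, q⟩, hv⟩
    apply hP n
    rw [eq_top_iff]
    intro g _
    induction q using QuotientGroup.induction_on with
    | H h =>
    have h1 := hv (h * g * h⁻¹)
    have h2 : (((h * g * h⁻¹) * h : H) : H ⧸ K n) = (h : H ⧸ K n) := by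
      have := congrArg (fun v : VT K => v) h1
      exact eq_of_heq (Sigma.mk.inj_iff.1 h1).2
    rw [QuotientGroup.eq] at h2
    have h3 : (h * g * h⁻¹ * h)⁻¹ * h = g⁻¹ := by group
    rw [h3] at h2
    exact (K n).inv_mem_iff.1 h2

end Pool.Agent.TH78.FA
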