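import Mathlib

set_option autoImplicit false

/-! The groups `(B × B) ⋊ ℤ/3` for an additive abelian group `B`. -/

namespace Pool.Agent.TH78.FA

/-- the powers of the automorphism `(x, y) ↦ (-y, x - y)` of order three -/
def sg {B : Type} [AddCommGroup B] (i : Fin 3) (x : B × B) : B × B :=
  match i with
  | 0 => x
  | 1 => (-x.2, x.1 - x.2)
  | 2 => (x.2 - x.1, -x.1)

section sg
variable {B : Type} [AddCommGroup B]

theorem sg_add (i : Fin 3) (x y : B × B) : sg i (x + y) = sg i x + sg i y := by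
  fin_cases i
  · rfl
  · ext <;> simp [sg] <;> abel
  · ext <;> simp [sg] <;> abel

theorem sg_zero (x : B × B) : sg 0 x = x := rfl

theorem sg_comp (i j : Fin 3) (x : B × B) : sg (i + j) x = sg i (sg j x) := by
  fin_cases i <;> fin_cases j <;> ext <;> simp [sg] <;> abel

theorem sg_zero_vec (i : Fin 3) : sg i (0 : B × B) = 0 := by
  fin_cases i <;> ext <;> simp [sg]

theorem sg_nsmul (i : Fin 3) (n : ℤ) (x : B × B) : sg i (n • x) = n • sg i x := by
  fin_cases i
  · rfl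
  · ext <;> simp [sg, smul_sub]
  · ext <;> simp [sg, smul_sub]

end sg

/-- the group `(B × B) ⋊ ℤ/3` -/
@[ext] structure Gam (B : Type) where
  /-- the translation part -/
  v : B × B
  /-- the rotation part -/
  i : Fin 3

namespace Gam

variable {B : Type} [AddCommGroup B]

instance : Mul (Gam B) := ⟨fun a b => ⟨a.v + sg a.i b.v, a.i + b.i⟩⟩
instance : One (Gam B) := ⟨⟨0, 0⟩⟩
instance : Inv (Gam B) := ⟨fun a => ⟨-sg (-a.i) a.v, -a.i⟩⟩

@[simp] theorem mul_v (a b : Gam B) : (a * b).v = a.v + sg a.i b.v := rfl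
@[simp] theorem mul_i (a b : Gam B) : (a * b).i = a.i + b.i := rfl
@[simp] theorem one_v : (1 : Gam B).v = 0 := rfl
@[simp] theorem one_i : (1 : Gam B).i = 0 := rfl
@[simp] theorem inv_v (a : Gam B) : (a⁻¹).v = -sg (-a.i) a.v := rfl
@[simp] theorem inv_i (a : Gam B) : (a⁻¹).i = -a.i := rfl

instance : Group (Gam B) where
  mul_assoc a b c := by
    ext1
    · simp only [mul_v, mul_i, sg_add, sg_comp, add_assoc]
    · simp only [mul_i, add_assoc]
  one_mul a := by
    ext1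
    · simp only [mul_v, one_v, one_i, sg_zero, zero_add]
    · simp only [mul_i, one_i, zero_add]
  mul_one a := by
    ext1
    · simp only [mul_v, one_v, sg_zero_vec, add_zero]
    · simp only [mul_i, one_i, add_zero]
  inv_mul_cancel a := by
    ext1
    · simp only [mul_v, inv_v, inv_i, one_v, neg_add_cancel]
    · simp only [mul_i, inv_i, one_i, neg_add_cancel]

/-- functoriality -/
def map {B' : Type} [AddCommGroup B'] (f : B →+ B') : Gam B →* Gam B' where
  toFun a := ⟨(f a.v.1, f a.v.2), a.i⟩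
  map_one' := by ext1 <;> simp
  map_mul' a b := by
    obtain ⟨v, i⟩ := a
    obtain ⟨w, j⟩ := b
    ext1
    · fin_cases i
      · ext <;> simp [sg]
      · ext <;> simp [sg]
      · ext <;> simp [sg]
    · rfl

/-- the subgroup of elements with translation part in `S × S` -/
def sub (S : AddSubgroup B) : Subgroup (Gam B) where
  carrier := {a | a.v.1 ∈ S ∧ a.v.2 ∈ S}
  one_mem' := ⟨S.zero_mem, S.zero_mem⟩
  mul_mem' := by
    rintro ⟨v, i⟩ ⟨w, j⟩ ⟨h1, h2⟩ ⟨h3, h4⟩
    simp only [Set.mem_ofPred_eq, mul_v] at *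
    fin_cases i
    · exact ⟨S.add_mem h1 h3, S.add_mem h2 h4⟩
    · exact ⟨S.add_mem h1 (S.neg_mem h4), S.add_mem h2 (S.sub_mem h3 h4)⟩
    · exact ⟨S.add_mem h1 (S.sub_mem h4 h3), S.add_mem h2 (S.neg_mem h3)⟩
  inv_mem' := by
    rintro ⟨v, i⟩ ⟨h1, h2⟩
    simp only [Set.mem_ofPred_eq, inv_v] at *
    fin_cases i
    · exact ⟨S.neg_mem h1, S.neg_mem h2⟩
    · exact ⟨S.neg_mem (S.sub_mem h2 h1), S.neg_mem (S.neg_mem h1)⟩
    · exact ⟨S.neg_mem (S.neg_mem h2), S.neg_mem (S.sub_mem h1 h2)⟩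

/-- the translations by multiples of `n` -/
def tr (n : ℤ) : Subgroup (Gam B) where
  carrier := {a | (∃ w : B × B, a.v = n • w) ∧ a.i = 0}
  one_mem' := ⟨⟨0, by simp⟩, rfl⟩
  mul_mem' := by
    rintro ⟨v, i⟩ ⟨v', i'⟩ ⟨⟨w, h1⟩, h2⟩ ⟨⟨w', h3⟩, h4⟩
    simp only at h1 h2 h3 h4
    subst h2 h4 h1 h3
    exact ⟨⟨w + w', by simp [sg_zero, smul_add]⟩, rfl⟩
  inv_mem' := by
    rintro ⟨v, i⟩ ⟨⟨w, h1⟩, h2⟩
    simp only at h1 h2
    subst h2 h1
    exact ⟨⟨-w, by simp [sg_zero]⟩, by simp⟩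

theorem mem_tr {n : ℤ} {a : Gam B} : a ∈ tr n ↔ (∃ w : B × B, a.v = n • w) ∧ a.i = 0 := Iff.rfl

instance tr_normal (n : ℤ) : (tr n : Subgroup (Gam B)).Normal where
  conj_mem := by
    rintro ⟨v, i⟩ ⟨⟨w, h1⟩, h2⟩ ⟨v', i'⟩
    simp only at h1 h2
    subst h2 h1
    refine ⟨⟨sg i' w, ?_⟩, by simp⟩
    have h : sg i' (-sg (-i') v') = -v' := by
      have h1 : sg i' (-sg (-i') v') + v' = 0 := by
        have h2 : v' = sg i' (sg (-i') v') := by
          rw [← sg_comp, add_neg_cancel, sg_zero]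
        conv_lhs => rw [h2]
        have h3 : sg (-i') (sg i' (sg (-i') v')) = sg (-i') v' := by
          rw [← h2]
        rw [h3, ← sg_add, neg_add_cancel, sg_zero_vec]
      exact eq_neg_of_add_eq_zero_left h1
    simp only [mul_v, mul_i, inv_v, add_zero]
    rw [h, sg_nsmul]
    abel

/-- powers of translations -/
theorem tr_pow (w : B × B) (n : ℕ) : (⟨w, 0⟩ : Gam B) ^ n = ⟨(n : ℤ) • w, 0⟩ := by
  induction n with
  | zero => ext1 <;> simp
  | succ n ih =>
    rw [pow_succ, ih]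
    ext1
    · simp [sg_zero, add_smul]
    · rfl

/-- a normal subgroup of index `n` contains the translations by multiples of `n` -/
theorem tr_le (N : Subgroup (Gam B)) [N.Normal] : tr (N.index : ℤ) ≤ N := by
  rintro ⟨v, i⟩ ⟨⟨w, h1⟩, h2⟩
  simp only at h1 h2
  subst h1 h2
  rw [← tr_pow]
  exact Subgroup.pow_index_mem N _

end Gam

end Pool.Agent.TH78.FA
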