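import Mathlib

set_option autoImplicit false

/-! The additive group `ℤ_(2) × ℤ[1/2]`. -/

namespace Pool.Agent.TH78.FA

/-- pairs of a rational number with odd denominator and a dyadic rational number -/
def LB : AddSubgroup (ℚ × ℚ) where
  carrier := {x | (∃ s z : ℤ, Odd s ∧ (s : ℚ) * x.1 = z) ∧ (∃ (k : ℕ) (w : ℤ), 2 ^ k * x.2 = (w : ℚ))}
  zero_mem' := ⟨⟨1, 0, odd_one, by simp⟩, ⟨0, 0, by simp⟩⟩
  add_mem' := by
    rintro ⟨x, y⟩ ⟨x', y'⟩ ⟨⟨s, z, hs, h1⟩, ⟨k, w, h2⟩⟩ ⟨⟨s', z', hs', h3⟩, ⟨k', w', h4⟩⟩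
    simp only at h1 h2 h3 h4
    refine ⟨⟨s * s', z * s' + z' * s, hs.mul hs', ?_⟩, ⟨k + k', w * 2 ^ k' + w' * 2 ^ k, ?_⟩⟩
    · push_cast
      simp only [Prod.mk_add_mk]
      rw [← h1, ← h3]; ring
    · push_cast
      simp only [Prod.mk_add_mk]
      rw [← h2, ← h4]; ring
  neg_mem' := by
    rintro ⟨x, y⟩ ⟨⟨s, z, hs, h1⟩, ⟨k, w, h2⟩⟩
    simp only at h1 h2
    refine ⟨⟨s, -z, hs, ?_⟩, ⟨k, -w, ?_⟩⟩
    · push_cast
      simp only [Prod.neg_mk]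
      rw [← h1]; ring
    · push_cast
      simp only [Prod.neg_mk]
      rw [← h2]; ring

theorem mem_LB {x : ℚ × ℚ} : x ∈ LB ↔
    (∃ s z : ℤ, Odd s ∧ (s : ℚ) * x.1 = z) ∧ (∃ (k : ℕ) (w : ℤ), 2 ^ k * x.2 = (w : ℚ)) := Iff.rfl

/-- the diagonal embedding of the integers -/
def dia : ℤ →+ LB where
  toFun c := ⟨((c : ℚ), (c : ℚ)), ⟨1, c, odd_one, by simp⟩, ⟨0, c, by simp⟩⟩
  map_zero' := by ext <;> simp
  map_add' a b := by ext <;> simp

theorem dia_inj : Function.Injective dia := by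
  intro a b h
  have := congrArg (fun x : LB => x.1.1) h
  simpa [dia] using this

/-- the integers are dense in `LB` for the profinite topology -/
theorem dense (n : ℕ) (hn : n ≠ 0) (b : LB) : ∃ (c : ℤ) (b' : LB), b = dia c + (n : ℤ) • b' := by
  obtain ⟨⟨x, y⟩, ⟨⟨s, z, hs, h1⟩, ⟨k, w, h2⟩⟩⟩ := b
  simp only at h1 h2
  obtain ⟨e, m, hm, rfl⟩ := Nat.exists_eq_two_pow_mul_odd hn
  have hm' : Odd (m : ℤ) := by exact_mod_cast hm
  have c1 : IsCoprime ((2 : ℤ) ^ e) (m : ℤ) :=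
    IsCoprime.pow_left (Int.isCoprime_two_left.2 hm')
  have c2 : IsCoprime s ((2 : ℤ) ^ e) :=
    IsCoprime.pow_right (Int.isCoprime_two_right.2 hs)
  have c3 : IsCoprime ((2 : ℤ) ^ k) (m : ℤ) :=
    IsCoprime.pow_left (Int.isCoprime_two_left.2 hm')
  obtain ⟨u, v, huv⟩ := c1
  obtain ⟨p, q, hpq⟩ := c2
  obtain ⟨p', q', hpq'⟩ := c3
  set c : ℤ := z * p * (v * m) + w * p' * (u * 2 ^ e) with hc
  -- `s c - z` is divisible by `2 ^ e`
  have d1 : ∃ a : ℤ, z - s * c = 2 ^ e * a := by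
    refine ⟨z * (q + u - q * u * 2 ^ e) - s * w * p' * u, ?_⟩
    have e1 : v * (m : ℤ) = 1 - u * 2 ^ e := by linarith
    have e2 : s * p = 1 - q * 2 ^ e := by linarith
    rw [hc, e1]
    calc z - s * (z * p * (1 - u * 2 ^ e) + w * p' * (u * 2 ^ e))
        = z - z * (s * p) * (1 - u * 2 ^ e) - s * w * p' * (u * 2 ^ e) := by ring
      _ = _ := by rw [e2]; ring
  have d2 : ∃ a : ℤ, w - 2 ^ k * c = m * a := by
    refine ⟨w * (q' + v - q' * v * m) - 2 ^ k * z * p * v, ?_⟩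
    have e1 : u * (2 : ℤ) ^ e = 1 - v * m := by linarith
    have e2 : 2 ^ k * p' = 1 - q' * m := by linarith
    rw [hc, e1]
    calc w - 2 ^ k * (z * p * (v * m) + w * p' * (1 - v * m))
        = w - w * (2 ^ k * p') * (1 - v * m) - 2 ^ k * z * p * (v * m) := by ring
      _ = _ := by rw [e2]; ring
  obtain ⟨a, ha⟩ := d1
  obtain ⟨a', ha'⟩ := d2
  have hm0 : (m : ℚ) ≠ 0 := by
    have : m ≠ 0 := by rintro rfl; simp at hm
    exact_mod_cast this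
  have h2e : (2 : ℚ) ^ e ≠ 0 := by positivity
  have ha2 : (z : ℚ) - s * c = 2 ^ e * a := by exact_mod_cast ha
  have ha2' : (w : ℚ) - 2 ^ k * c = m * a' := by exact_mod_cast ha'
  refine ⟨c, ⟨((x - c) / (2 ^ e * m), (y - c) / (2 ^ e * m)),
    ⟨s * m, a, hs.mul hm', ?_⟩, ⟨k + e, a', ?_⟩⟩, ?_⟩
  · push_cast
    field_simp
    rw [mul_sub, h1, ha2]
  · push_cast
    rw [pow_add]
    field_simp
    rw [mul_sub, h2, ha2']
  · apply Subtype.ext
    apply Prod.ext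
    · have h3 : x = (c : ℚ) + (((2 ^ e * m : ℕ) : ℤ) : ℚ) * ((x - c) / (2 ^ e * m)) := by
        push_cast
        field_simp
        ring
      simpa [dia] using h3
    · have h3 : y = (c : ℚ) + (((2 ^ e * m : ℕ) : ℤ) : ℚ) * ((y - c) / (2 ^ e * m)) := by
        push_cast
        field_simp
        ring
      simpa [dia] using h3

/-- the profinite topology of `LB` induces that of the integers -/
theorem induced (n : ℕ) (hn : n ≠ 0) (c : ℤ) (b : LB) (h : dia c = (n : ℤ) • b) :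
    ∃ d : ℤ, c = (n : ℤ) * d := by
  obtain ⟨⟨x, y⟩, ⟨⟨s, z, hs, h1⟩, ⟨k, w, h2⟩⟩⟩ := b
  simp only at h1 h2
  have hn' : (n : ℚ) ≠ 0 := by exact_mod_cast hn
  have hx : (c : ℚ) = n * x := by
    have := congrArg (fun x : LB => x.1.1) h
    simpa [dia] using this
  have hy : (c : ℚ) = n * y := by
    have := congrArg (fun x : LB => x.1.2) h
    simpa [dia] using this
  have hxy : x = y := mul_left_cancel₀ hn' (by rw [← hx, ← hy])
  subst hxy
  have c1 : IsCoprime s ((2 : ℤ) ^ k) := IsCoprime.pow_right (Int.isCoprime_two_right.2 hs)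
  obtain ⟨p, q, hpq⟩ := c1
  refine ⟨p * z + q * w, ?_⟩
  have e : (p : ℚ) * s + q * 2 ^ k = 1 := by exact_mod_cast hpq
  have : x = p * z + q * w := by
    calc x = (p * s + q * 2 ^ k) * x := by rw [e, one_mul]
      _ = p * (s * x) + q * (2 ^ k * x) := by ring
      _ = _ := by rw [h1, h2]
  rw [this] at hx
  exact_mod_cast hx

/-- `LB` is residually finite -/
theorem resfin (b : LB) (hb : b ≠ 0) : ∃ n : ℕ, n ≠ 0 ∧ ¬ ∃ b' : LB, b = (n : ℤ) • b' := by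
  obtain ⟨⟨x, y⟩, hmem⟩ := b
  have hmem2 := hmem
  obtain ⟨⟨s, z, hs, h1⟩, ⟨k, w, h2⟩⟩ := hmem2
  simp only at h1 h2
  by_cases hx : x = 0
  · have hy : y ≠ 0 := by
      rintro rfl
      apply hb
      subst hx
      rfl
    have hw : w ≠ 0 := by
      rintro rfl
      have h3 : (2 : ℚ) ^ k ≠ 0 := by positivity
      rw [Int.cast_zero] at h2
      exact (mul_ne_zero h3 hy) h2
    refine ⟨3 ^ w.natAbs, by positivity, ?_⟩
    rintro ⟨⟨⟨x', y'⟩, ⟨⟨s', z', hs', h1'⟩, ⟨k', w', h2'⟩⟩⟩, h⟩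
    simp only at h1' h2'
    have hy2 : y = 3 ^ w.natAbs * y' := by
      have := congrArg (fun x : LB => x.1.2) h
      simpa using this
    have e : (2 : ℚ) ^ k' * w = 2 ^ k * 3 ^ w.natAbs * w' := by
      rw [← h2, ← h2', hy2]; ring
    have e' : (2 : ℤ) ^ k' * w = 2 ^ k * 3 ^ w.natAbs * w' := by exact_mod_cast e
    have hd : (3 : ℤ) ^ w.natAbs ∣ 2 ^ k' * w := ⟨2 ^ k * w', by rw [e']; ring⟩
    have hc : IsCoprime ((3 : ℤ) ^ w.natAbs) (2 ^ k') := by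
      apply IsCoprime.pow
      norm_num
    have hd2 := hc.dvd_of_dvd_mul_left hd
    have hd3 := Int.le_of_dvd (by positivity) ((dvd_abs _ _).2 hd2)
    have hlt : w.natAbs < 3 ^ w.natAbs := Nat.lt_pow_self (by norm_num)
    have : |w| = (w.natAbs : ℤ) := Int.abs_eq_natAbs w
    rw [this] at hd3
    have : (3 : ℤ) ^ w.natAbs = ((3 ^ w.natAbs : ℕ) : ℤ) := by push_cast; rfl
    omega
  · have hz : z ≠ 0 := by
      rintro rfl
      have h3 : (s : ℚ) ≠ 0 := by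
        have : s ≠ 0 := by rintro rfl; simp at hs
        exact_mod_cast this
      rw [Int.cast_zero] at h1
      exact (mul_ne_zero h3 hx) h1
    refine ⟨2 ^ z.natAbs, by positivity, ?_⟩
    rintro ⟨⟨⟨x', y'⟩, ⟨⟨s', z', hs', h1'⟩, ⟨k', w', h2'⟩⟩⟩, h⟩
    simp only at h1' h2'
    have hx2 : x = 2 ^ z.natAbs * x' := by
      have := congrArg (fun x : LB => x.1.1) h
      simpa using this
    have e : (s' : ℚ) * z = s * 2 ^ z.natAbs * z' := by
      rw [← h1, ← h1', hx2]; ring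
    have e' : s' * z = s * 2 ^ z.natAbs * z' := by exact_mod_cast e
    have hd : (2 : ℤ) ^ z.natAbs ∣ s' * z := ⟨s * z', by rw [e']; ring⟩
    have hc : IsCoprime ((2 : ℤ) ^ z.natAbs) s' :=
      IsCoprime.pow_left (Int.isCoprime_two_left.2 hs')
    have hd2 := hc.dvd_of_dvd_mul_left hd
    have hd3 := Int.le_of_dvd (by positivity) ((dvd_abs _ _).2 hd2)
    have hlt : z.natAbs < 2 ^ z.natAbs := Nat.lt_pow_self (by norm_num)
    have : |z| = (z.natAbs : ℤ) := Int.abs_eq_natAbs z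
    rw [this] at hd3
    have : (2 : ℤ) ^ z.natAbs = ((2 ^ z.natAbs : ℕ) : ℤ) := by push_cast; rfl
    omega

/-- the pairs whose second entry has denominator dividing `2 ^ n` -/
def Bn (n : ℕ) : AddSubgroup LB where
  carrier := {x | ∃ w : ℤ, 2 ^ n * x.1.2 = (w : ℚ)}
  zero_mem' := ⟨0, by simp⟩
  add_mem' := by
    rintro ⟨⟨x, y⟩, h⟩ ⟨⟨x', y'⟩, h'⟩ ⟨w, hw⟩ ⟨w', hw'⟩
    simp only at hw hw'
    refine ⟨w + w', ?_⟩
    simp only [AddMemClass.mk_add_mk, Prod.mk_add_mk]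
    push_cast
    rw [← hw, ← hw']; ring
  neg_mem' := by
    rintro ⟨⟨x, y⟩, h⟩ ⟨w, hw⟩
    simp only at hw
    refine ⟨-w, ?_⟩
    simp only [NegMemClass.coe_neg, Prod.snd_neg]
    push_cast
    rw [← hw]; ring

theorem Bn_mono (n : ℕ) : Bn n ≤ Bn (n + 1) := by
  rintro x ⟨w, hw⟩
  refine ⟨2 * w, ?_⟩
  push_cast
  rw [← hw]; ring

theorem Bn_le {m n : ℕ} (h : m ≤ n) : Bn m ≤ Bn n := monotone_nat_of_le_succ Bn_mono h

theorem Bn_union (x : LB) : ∃ n, x ∈ Bn n := by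
  obtain ⟨x, h1, ⟨k, w, hw⟩⟩ := x
  exact ⟨k, w, hw⟩

/-- an element outside `Bn n` -/
def out (n : ℕ) : LB := ⟨(0, 1 / 2 ^ (n + 1)), ⟨1, 0, odd_one, by simp⟩, ⟨n + 1, 1, by simp⟩⟩

theorem out_not_mem (n : ℕ) : out n ∉ Bn n := by
  rintro ⟨w, hw⟩
  have h : (2 : ℚ) ^ n * (1 / 2 ^ (n + 1)) = w := hw
  have h2 : (2 : ℚ) * w = 1 := by
    rw [← h, pow_succ]; field_simp
  have h3 : (2 : ℤ) * w = 1 := by exact_mod_cast h2
  omega

end Pool.Agent.TH78.FA
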