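import Pool.Agent.TH78.FA.Chain
import Pool.Agent.TH78.FA.Gam
import Pool.Agent.TH78.FA.Num
import Pool.Agent.Helper270.Tree

set_option autoImplicit false

namespace Pool.Agent.TH78.FA

open Pool.Agent.Helper270.Tree

/-- Elements of finite order fix a vertex. -/
theorem fix_of_finOrder {K V : Type} [Group K] [MulAction K V] {T : SimpleGraph V}
    (h : TreeAct K T) {g : K} (hg : IsOfFinOrder g) : ∃ v : V, g • v = v := by
  by_contra hcon
  push Not at hcon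
  obtain ⟨L, l, hL⟩ := h.exists_axis hcon
  have h1 : ∀ n : ℕ, g ^ n • L 0 = L (n * l) := by
    intro n
    induction n with
    | zero => simp
    | succ n ih =>
      rw [pow_succ', mul_smul, ih, hL.smul]
      congr 1
      push_cast
      ring
  obtain ⟨n, hn, hn1⟩ := isOfFinOrder_iff_pow_eq_one.1 hg
  have h2 := h1 n
  rw [hn1, one_smul] at h2
  have h3 := hL.line.injective h.isTree h2
  have h4 := hL.pos
  have : (0 : ℤ) < n * l := by positivity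
  omega

/-- the rotation -/
def ga : Gam ℤ := ⟨0, 1⟩
/-- another rotation -/
def gb : Gam ℤ := ⟨(1, 0), 1⟩

theorem ga_pow : ga ^ 3 = 1 := by
  rw [pow_succ, pow_two]
  ext1
  · ext <;> simp [ga, sg, Gam.mul_v, Gam.mul_i]
  · rfl

theorem gb_pow : gb ^ 3 = 1 := by
  rw [pow_succ, pow_two]
  ext1
  · ext <;> simp [gb, sg, Gam.mul_v, Gam.mul_i]
  · rfl

theorem gab_pow : (ga * gb) ^ 3 = 1 := by
  rw [pow_succ, pow_two]
  ext1
  · ext <;> simp [ga, gb, sg, Gam.mul_v, Gam.mul_i]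
  · rfl

theorem tr_zpow {B : Type} [AddCommGroup B] (w : B × B) (n : ℤ) :
    (⟨w, 0⟩ : Gam B) ^ n = ⟨n • w, 0⟩ := by
  obtain ⟨m, rfl | rfl⟩ := Int.eq_nat_or_neg n
  · rw [zpow_natCast, Gam.tr_pow]
  · rw [zpow_neg, zpow_natCast, Gam.tr_pow]
    ext1
    · simp [sg_zero]
    · simp

/-- every element is a word in the two rotations -/
theorem gen (S : Subgroup (Gam ℤ)) (ha : ga ∈ S) (hb : gb ∈ S) : S = ⊤ := by
  rw [eq_top_iff]
  rintro g -
  have h1 : (⟨(1, 0), 0⟩ : Gam ℤ) ∈ S := by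
    have : (⟨(1, 0), 0⟩ : Gam ℤ) = gb * ga⁻¹ := rfl
    rw [this]
    exact S.mul_mem hb (S.inv_mem ha)
  have h2 : (⟨(0, 1), 0⟩ : Gam ℤ) ∈ S := by
    have : (⟨(0, 1), 0⟩ : Gam ℤ) = ga * ⟨(1, 0), 0⟩ * ga⁻¹ := rfl
    rw [this]
    exact S.mul_mem (S.mul_mem ha h1) (S.inv_mem ha)
  have h3 : ∀ i : Fin 3, (⟨0, i⟩ : Gam ℤ) ∈ S := by
    intro i
    fin_cases i
    · exact S.one_mem
    · exact ha
    · have : (⟨0, 2⟩ : Gam ℤ) = ga * ga := rfl
      change (⟨0, 2⟩ : Gam ℤ) ∈ S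
      rw [this]
      exact S.mul_mem ha ha
  obtain ⟨⟨x, y⟩, i⟩ := g
  have : (⟨(x, y), i⟩ : Gam ℤ) = (⟨(1, 0), 0⟩ : Gam ℤ) ^ x * (⟨(0, 1), 0⟩ : Gam ℤ) ^ y * ⟨0, i⟩ := by
    rw [tr_zpow, tr_zpow]
    ext1
    · ext <;> simp [sg, Gam.mul_v, Gam.mul_i]
    · simp [Gam.mul_i]
  rw [this]
  exact S.mul_mem (S.mul_mem (S.zpow_mem h1 _) (S.zpow_mem h2 _)) (h3 i)

/-- the triangle group has property (FA) -/
theorem fa_G (V : Type) [MulAction (Gam ℤ) V] (T : SimpleGraph V) (hT : T.IsTree)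
    (hadj : ∀ g : Gam ℤ, ∀ x y : V, T.Adj x y → T.Adj (g • x) (g • y))
    (hinv : ∀ g : Gam ℤ, ∀ x y : V, T.Adj x y → ¬ (g • x = y ∧ g • y = x)) :
    ∃ v : V, ∀ g : Gam ℤ, g • v = v := by
  have hact : TreeAct (Gam ℤ) T := ⟨hT, hadj, hinv⟩
  have f1 := fix_of_finOrder hact (isOfFinOrder_iff_pow_eq_one.2 ⟨3, by norm_num, ga_pow⟩)
  have f2 := fix_of_finOrder hact (isOfFinOrder_iff_pow_eq_one.2 ⟨3, by norm_num, gb_pow⟩)
  have f3 := fix_of_finOrder hact (isOfFinOrder_iff_pow_eq_one.2 ⟨3, by norm_num, gab_pow⟩)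
  obtain ⟨x, hx, hx'⟩ := hact.common_fixed {ga} gb (by simpa using f1) f2 (by simpa using f3)
  refine ⟨x, ?_⟩
  have := gen (MulAction.stabilizer (Gam ℤ) x) (hx ga rfl) hx'
  intro g
  have hg : g ∈ MulAction.stabilizer (Gam ℤ) x := by rw [this]; trivial
  exact hg

/-- the embedding -/
def emb : Gam ℤ →* Gam LB := Gam.map dia

theorem emb_apply (x y : ℤ) (i : Fin 3) : emb ⟨(x, y), i⟩ = ⟨(dia x, dia y), i⟩ := rfl

theorem emb_inj : Function.Injective emb := by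
  rintro ⟨⟨x, y⟩, i⟩ ⟨⟨x', y'⟩, i'⟩ h
  rw [emb_apply, emb_apply] at h
  have h1 := congrArg (fun a : Gam LB => a.v.1) h
  have h2 := congrArg (fun a : Gam LB => a.v.2) h
  have h3 := congrArg (fun a : Gam LB => a.i) h
  simp only at h1 h2 h3
  rw [dia_inj h1, dia_inj h2, h3]

/-- the translation subgroups have finite index -/
theorem tr_index (n : ℕ) (hn : n ≠ 0) : (Gam.tr (B := LB) (n : ℤ)).index ≠ 0 := by
  have hsurj : Function.Surjective (fun t : (Fin n × Fin n) × Fin 3 =>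
      ((⟨(dia ((t.1.1 : ℕ) : ℤ), dia ((t.1.2 : ℕ) : ℤ)), t.2⟩ : Gam LB) :
        Gam LB ⧸ Gam.tr (B := LB) (n : ℤ))) := by
    intro q
    induction q using QuotientGroup.induction_on with
    | H g =>
    obtain ⟨⟨x, y⟩, i⟩ := g
    have hred : ∀ x : LB, ∃ (c : Fin n) (b : LB), x = dia ((c : ℕ) : ℤ) + (n : ℤ) • b := by
      intro x
      obtain ⟨c, b, h⟩ := dense n hn x
      have hpos : (0 : ℤ) < n := by positivity
      refine ⟨⟨(c % n).toNat, ?_⟩, dia (c / n) + b, ?_⟩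
      · have := Int.emod_lt_of_pos c hpos
        have := Int.emod_nonneg c hpos.ne'
        omega
      · have h1 : (((c % n).toNat : ℕ) : ℤ) = c % n := Int.toNat_of_nonneg (Int.emod_nonneg c hpos.ne')
        simp only
        rw [h1, h, smul_add, ← add_assoc, ← map_zsmul, ← map_add]
        congr 2
        rw [smul_eq_mul]
        exact (Int.emod_add_mul_ediv c n).symm
    obtain ⟨c, b, hb⟩ := hred x
    obtain ⟨c', b', hb'⟩ := hred y
    refine ⟨((c, c'), i), ?_⟩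
    simp only
    rw [eq_comm, QuotientGroup.eq, Gam.mem_tr]
    refine ⟨⟨sg (-i) (-b, -b'), ?_⟩, by simp⟩
    simp only [Gam.mul_v, Gam.inv_v, Gam.inv_i]
    rw [hb, hb']
    have h2 : ((dia ((c : ℕ) : ℤ) + (n : ℤ) • b, dia ((c' : ℕ) : ℤ) + (n : ℤ) • b') : LB × LB) =
        (dia ((c : ℕ) : ℤ), dia ((c' : ℕ) : ℤ)) + (n : ℤ) • (b, b') := by
      ext <;> simp
    have h3 : ((-b, -b') : LB × LB) = (-1 : ℤ) • (b, b') := by simp
    rw [h2, sg_add, sg_nsmul, h3, sg_nsmul]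
    rw [neg_add, add_comm, ← add_assoc, add_neg_cancel, zero_add, smul_smul, mul_neg, mul_one,
      neg_smul]
  have : Finite (Gam LB ⧸ Gam.tr (B := LB) (n : ℤ)) := Finite.of_surjective _ hsurj
  exact Subgroup.index_ne_zero_of_finite

/-- residual finiteness -/
theorem rf_H (h : Gam LB) (hh : h ≠ 1) : ∃ M : Subgroup (Gam LB), M.Normal ∧ M.index ≠ 0 ∧ h ∉ M := by
  obtain ⟨⟨x, y⟩, i⟩ := h
  by_cases hi : i = 0
  · subst hi
    by_cases hx : x = 0
    · have hy : y ≠ 0 := by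
        rintro rfl
        apply hh
        subst hx
        rfl
      obtain ⟨n, hn, hb⟩ := resfin y hy
      refine ⟨Gam.tr n, inferInstance, tr_index n hn, ?_⟩
      rintro ⟨⟨w, hw⟩, -⟩
      exact hb ⟨w.2, congrArg Prod.snd hw⟩
    · obtain ⟨n, hn, hb⟩ := resfin x hx
      refine ⟨Gam.tr n, inferInstance, tr_index n hn, ?_⟩
      rintro ⟨⟨w, hw⟩, -⟩
      exact hb ⟨w.1, congrArg Prod.fst hw⟩
  · refine ⟨Gam.tr (1 : ℕ), inferInstance, tr_index 1 one_ne_zero, ?_⟩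
    rintro ⟨-, h⟩
    exact hi h

theorem main :
    ¬ (∀ (G H : Type) [Group G] [Group H] (u : G →* H),
      (∀ g : G, g ≠ 1 → ∃ N : Subgroup G, N.Normal ∧ N.index ≠ 0 ∧ g ∉ N) →
      (∀ h : H, h ≠ 1 → ∃ M : Subgroup H, M.Normal ∧ M.index ≠ 0 ∧ h ∉ M) →
      Function.Injective u →
      (∀ N : Subgroup G, N.Normal → N.index ≠ 0 →
        ∃ M : Subgroup H, M.Normal ∧ M.index ≠ 0 ∧ M.comap u ≤ N) →
      (∀ M : Subgroup H, M.Normal → M.index ≠ 0 →
        ∀ h : H, ∃ g : G, ∃ m ∈ M, h = u g * m) →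
      (∀ (V : Type) [MulAction G V] (T : SimpleGraph V), T.IsTree →
        (∀ g : G, ∀ x y : V, T.Adj x y → T.Adj (g • x) (g • y)) →
        (∀ g : G, ∀ x y : V, T.Adj x y → ¬ (g • x = y ∧ g • y = x)) →
        ∃ v : V, ∀ g : G, g • v = v) →
      (∀ (V : Type) [MulAction H V] (T : SimpleGraph V), T.IsTree →
        (∀ h : H, ∀ x y : V, T.Adj x y → T.Adj (h • x) (h • y)) →
        (∀ h : H, ∀ x y : V, T.Adj x y → ¬ (h • x = y ∧ h • y = x)) →
        ∃ v : V, ∀ h : H, h • v = v)) := by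
  intro hall
  have h1 := hall (Gam ℤ) (Gam LB) emb ?_ rf_H emb_inj ?_ ?_ (fun V _ T => fa_G V T)
  · obtain ⟨T, hT, ha, hi, hno⟩ := chain_tree (fun n => Gam.sub (Bn n))
      (fun n x hx => ⟨Bn_mono n hx.1, Bn_mono n hx.2⟩)
      (by
        intro h
        obtain ⟨m, hm⟩ := Bn_union h.v.1
        obtain ⟨n, hn⟩ := Bn_union h.v.2
        exact ⟨max m n, Bn_le (le_max_left _ _) hm, Bn_le (le_max_right _ _) hn⟩)
      (by
        intro n hn
        have : (⟨(out n, 0), 0⟩ : Gam LB) ∈ Gam.sub (Bn n) := by rw [hn]; trivial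
        exact out_not_mem n this.1)
    exact hno (h1 _ T hT ha hi)
  · intro g hg
    obtain ⟨M, hM1, hM2, hM3⟩ := rf_H (emb g) (fun h => hg (emb_inj (by rw [h, map_one])))
    refine ⟨M.comap emb, inferInstance, ?_, hM3⟩
    rw [Subgroup.index_comap]
    intro h0
    exact hM2 (Subgroup.index_eq_zero_of_relIndex_eq_zero h0)
  · intro N hN hN2
    refine ⟨Gam.tr (N.index : ℤ), inferInstance, tr_index _ hN2, ?_⟩
    rintro ⟨⟨x, y⟩, i⟩ hg
    rw [Subgroup.mem_comap, emb_apply] at hg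
    obtain ⟨⟨w, hw⟩, hi⟩ := hg
    simp only at hw hi
    subst hi
    obtain ⟨d, hd⟩ := induced _ hN2 x w.1 (congrArg Prod.fst hw)
    obtain ⟨d', hd'⟩ := induced _ hN2 y w.2 (congrArg Prod.snd hw)
    apply Gam.tr_le N
    refine ⟨⟨(d, d'), ?_⟩, rfl⟩
    rw [hd, hd']
    rfl
  · intro M hM hM2 h
    obtain ⟨⟨x, y⟩, i⟩ := h
    obtain ⟨c, b, hb⟩ := dense M.index hM2 x
    obtain ⟨c', b', hb'⟩ := dense M.index hM2 y
    refine ⟨⟨(c, c'), i⟩, ⟨sg (-i) ((M.index : ℤ) • (b, b')), 0⟩, ?_, ?_⟩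
    · apply Gam.tr_le M
      exact ⟨⟨sg (-i) (b, b'), by rw [sg_nsmul]⟩, rfl⟩
    · rw [emb_apply]
      ext1
      · rw [Gam.mul_v]
        simp only
        rw [← sg_comp, add_neg_cancel, sg_zero, hb, hb']
        rfl
      · simp [Gam.mul_i]

end Pool.Agent.TH78.FA
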