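import Mathlib

set_option autoImplicit false

/-! A graph given by a parent function is a tree. -/

namespace Pool.Agent.TH78.FA

/-- the graph of a parent function -/
def parGraph {V : Type} (p : V → V) : SimpleGraph V where
  Adj v w := v ≠ w ∧ (p v = w ∨ p w = v)
  symm := ⟨fun _ _ h => ⟨h.1.symm, h.2.symm⟩⟩
  loopless := ⟨fun _ h => h.1 rfl⟩

theorem parGraph_isTree {V : Type} [Nonempty V] (p : V → V) (lvl : V → ℕ)
    (hl : ∀ v, lvl (p v) = lvl v + 1)
    (hc : ∀ v w : V, ∃ m n : ℕ, p^[m] v = p^[n] w) : (parGraph p).IsTree := by
  classical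
  have hne : ∀ v, v ≠ p v := by
    intro v hv
    have := hl v
    rw [← hv] at this
    omega
  have hreach : ∀ (m : ℕ) (v : V), (parGraph p).Reachable v (p^[m] v) := by
    intro m
    induction m with
    | zero => intro v; exact SimpleGraph.Reachable.refl _
    | succ m ih =>
      intro v
      rw [Function.iterate_succ_apply']
      refine (ih v).trans (SimpleGraph.Adj.reachable ⟨hne _, Or.inl rfl⟩)
  constructor
  · refine { preconnected := ?_, nonempty := inferInstance }
    intro v w
    obtain ⟨m, n, h⟩ := hc v w
    exact (hreach m v).trans (h ▸ (hreach n w).symm)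
  · intro u c hcyc
    -- a vertex of minimal level in the support
    have hs : c.support.toFinset.Nonempty := ⟨u, by simp⟩
    obtain ⟨v, hv, hmin⟩ := Finset.exists_min_image c.support.toFinset lvl hs
    rw [List.mem_toFinset] at hv
    set d := c.rotate v hv with hd
    have hdc : d.IsCycle := hcyc.rotate hv
    have hmem : ∀ x ∈ d.support, lvl v ≤ lvl x := by
      intro x hx
      apply hmin
      rw [List.mem_toFinset]
      exact (SimpleGraph.Walk.mem_support_rotate_iff c v hv).1 hx
    have h1 : (parGraph p).Adj v d.snd := d.adj_snd hdc.not_nil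
    have h2 : (parGraph p).Adj d.penultimate v := d.adj_penultimate hdc.not_nil
    have key : ∀ x, (parGraph p).Adj v x → lvl v ≤ lvl x → x = p v := by
      intro x hx hle
      rcases hx.2 with h | h
      · exact h.symm
      · have := hl x
        rw [h] at this
        omega
    have e1 := key _ h1 (hmem _ (SimpleGraph.Walk.getVert_mem_support _ _))
    have e2 := key _ h2.symm (hmem _ (SimpleGraph.Walk.getVert_mem_support _ _))
    exact hdc.snd_ne_penultimate (e1.trans e2.symm)

end Pool.Agent.TH78.FA
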